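import Pool.Agent.Helper98.QR.StmtsA

/-!
# A04: structure of a permutation cut at `B`
-/

namespace QR

open Equiv.Perm

namespace A04

variable {S : Type}

theorem app_inv (f : Equiv.Perm S) (x : S) : f (f⁻¹ x) = x := f.apply_symm_apply x

theorem inv_app (f : Equiv.Perm S) (x : S) : f⁻¹ (f x) = x := f.symm_apply_apply x

theorem same_of_step {σ ρ : Equiv.Perm S} (h : ∀ x, σ.SameCycle x (ρ x)) {x y : S}
    (hxy : ρ.SameCycle x y) : σ.SameCycle x y := by
  obtain ⟨n, hn⟩ := hxy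
  have key : ∀ n : ℤ, σ.SameCycle x ((ρ ^ n) x) := by
    intro n
    induction n using Int.induction_on with
    | zero => exact SameCycle.refl _ _
    | succ i ih =>
      have h1 := h ((ρ ^ (i : ℤ)) x)
      have h2 : ρ ((ρ ^ (i : ℤ)) x) = (ρ ^ ((i : ℤ) + 1)) x := by
        rw [add_comm, zpow_add, zpow_one, mul_apply]
      rw [h2] at h1
      exact ih.trans h1
    | pred i ih =>
      have h1 := h ((ρ ^ (-(i : ℤ) - 1)) x)
      have h2 : ρ ((ρ ^ (-(i : ℤ) - 1)) x) = (ρ ^ (-(i : ℤ))) x := by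
        rw [← mul_apply, ← zpow_one_add]
        congr 2
        ring
      rw [h2] at h1
      exact ih.trans h1.symm
  rw [← hn]
  exact key n

/-- `ρ` preserves `B` -/
theorem inv_mem [Finite S] {σ ρ : Equiv.Perm S} {B : Set S} (h : IsRet σ B ρ) {x : S}
    (hx : x ∈ B) : ρ⁻¹ x ∈ B := by
  by_contra hcon
  have h1 := h.1 _ hcon
  rw [app_inv] at h1
  exact hcon (h1 ▸ hx)

theorem ret_same {σ ρ : Equiv.Perm S} {B : Set S} (h : IsRet σ B ρ) (x : S) :
    σ.SameCycle x (ρ x) := by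
  by_cases hx : x ∈ B
  · obtain ⟨-, k, -, hk, -⟩ := h.2 x hx
    exact ⟨k, by rw [hk, zpow_natCast]⟩
  · rw [h.1 x hx]

theorem tau_same {σ ρ : Equiv.Perm S} {B : Set S} (h : IsRet σ B ρ) (x : S) :
    σ.SameCycle x ((ρ⁻¹ * σ) x) := by
  have h1 := ret_same h ((ρ⁻¹ * σ) x)
  rw [mul_apply, app_inv] at h1
  rw [mul_apply]
  exact (SameCycle.refl σ x).apply_right.trans h1.symm

theorem tau_notmem {σ ρ : Equiv.Perm S} {B : Set S} (h : IsRet σ B ρ) {x : S} (hx : σ x ∉ B) :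
    (ρ⁻¹ * σ) x = σ x := by
  rw [mul_apply, inv_eq_iff_eq]
  exact (h.1 _ hx).symm

theorem block [Finite S] {σ ρ : Equiv.Perm S} {B : Set S} (h : IsRet σ B ρ) {b : S} (hb : b ∈ B)
    {k : ℕ} (hk : 1 ≤ k) (hkb : ρ b = (σ ^ k) b) (hj : ∀ j, 1 ≤ j → j < k → (σ ^ j) b ∉ B) (n : ℤ) :
    ∃ j < k, ((ρ⁻¹ * σ) ^ n) b = (σ ^ j) b := by
  have step : ∀ j, j + 1 < k → (ρ⁻¹ * σ) ((σ ^ j) b) = (σ ^ (j + 1)) b := by
    intro j hjk
    have h1 : σ ((σ ^ j) b) = (σ ^ (j + 1)) b := by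
      rw [pow_succ', mul_apply]
    rw [tau_notmem h (by rw [h1]; exact hj _ (by omega) hjk), h1]
  have last : (ρ⁻¹ * σ) ((σ ^ (k - 1)) b) = b := by
    have h1 : σ ((σ ^ (k - 1)) b) = (σ ^ k) b := by
      rw [← mul_apply, ← pow_succ', show k - 1 + 1 = k by omega]
    rw [mul_apply, h1, ← hkb, inv_app]
  induction n using Int.induction_on with
  | zero => exact ⟨0, by omega, by simp⟩
  | succ i ih =>
    obtain ⟨j, hjk, hj2⟩ := ih
    have e : ((ρ⁻¹ * σ) ^ ((i : ℤ) + 1)) b = (ρ⁻¹ * σ) ((σ ^ j) b) := by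
      rw [← hj2, add_comm, zpow_add, zpow_one, mul_apply]
    rw [e]
    by_cases hjk2 : j + 1 < k
    · exact ⟨j + 1, hjk2, step j hjk2⟩
    · have : j = k - 1 := by omega
      refine ⟨0, by omega, ?_⟩
      rw [this, last, pow_zero, one_apply]
  | pred i ih =>
    obtain ⟨j, hjk, hj2⟩ := ih
    have e : (ρ⁻¹ * σ) (((ρ⁻¹ * σ) ^ (-(i : ℤ) - 1)) b) = (σ ^ j) b := by
      rw [← hj2, ← mul_apply, ← zpow_one_add]
      congr 2
      ring
    by_cases hj0 : j = 0
    · refine ⟨k - 1, by omega, ?_⟩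
      apply (ρ⁻¹ * σ).injective
      rw [e, last, hj0, pow_zero, one_apply]
    · refine ⟨j - 1, by omega, ?_⟩
      apply (ρ⁻¹ * σ).injective
      rw [e, step (j - 1) (by omega)]
      congr 2
      omega

theorem one_mem [Finite S] {σ ρ : Equiv.Perm S} {B : Set S} (h : IsRet σ B ρ) {x y : S}
    (hx : x ∈ B) (hy : y ∈ B) (hxy : (ρ⁻¹ * σ).SameCycle x y) : x = y := by
  obtain ⟨hr, k, hk, hkb, hj⟩ := h.2 x hx
  obtain ⟨n, hn⟩ := hxy
  obtain ⟨j, hjk, hj2⟩ := block h hx hk hkb hj n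
  rw [hn] at hj2
  by_cases hj0 : j = 0
  · rw [hj2, hj0, pow_zero, one_apply]
  · exact absurd (hj2 ▸ hy) (hj j (by omega) hjk)

theorem same_iff [Finite S] {σ ρ : Equiv.Perm S} {B : Set S} (h : IsRet σ B ρ) (x y : S) :
    σ.SameCycle x y ↔ (ρ⁻¹ * σ).SameCycle x y ∨
      ∃ b ∈ B, ∃ b' ∈ B, (ρ⁻¹ * σ).SameCycle x b ∧ ρ.SameCycle b b' ∧ (ρ⁻¹ * σ).SameCycle b' y := by
  constructor
  · rintro ⟨n, rfl⟩
    let R : S → S → Prop := fun x y => (ρ⁻¹ * σ).SameCycle x y ∨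
      ∃ b ∈ B, ∃ b' ∈ B, (ρ⁻¹ * σ).SameCycle x b ∧ ρ.SameCycle b b' ∧ (ρ⁻¹ * σ).SameCycle b' y
    have hsymm : ∀ x y, R x y → R y x := by
      rintro x y (h1 | ⟨b, hb, b', hb', h1, h2, h3⟩)
      · exact Or.inl h1.symm
      · exact Or.inr ⟨b', hb', b, hb, h3.symm, h2.symm, h1.symm⟩
    have htrans : ∀ x y z, R x y → R y z → R x z := by
      rintro x y z (h1 | ⟨b, hb, b', hb', h1, h2, h3⟩) (g1 | ⟨c, hc, c', hc', g1, g2, g3⟩)
      · exact Or.inl (h1.trans g1)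
      · exact Or.inr ⟨c, hc, c', hc', h1.trans g1, g2, g3⟩
      · exact Or.inr ⟨b, hb, b', hb', h1, h2, h3.trans g1⟩
      · have : b' = c := one_mem h hb' hc (h3.trans g1)
        subst this
        exact Or.inr ⟨b, hb, c', hc', h1, h2.trans g2, g3⟩
    have hstep : ∀ x, R x (σ x) := by
      intro x
      by_cases hx : σ x ∈ B
      · refine Or.inr ⟨ρ⁻¹ (σ x), inv_mem h hx, σ x, hx, ?_, ?_, SameCycle.refl _ _⟩
        · rw [← mul_apply]
          exact (SameCycle.refl _ x).apply_right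
        · exact ⟨1, by rw [zpow_one, app_inv]⟩
      · left
        rw [← tau_notmem h hx]
        exact (SameCycle.refl _ x).apply_right
    have key : ∀ n : ℤ, R x ((σ ^ n) x) := by
      intro n
      induction n using Int.induction_on with
      | zero => exact Or.inl (SameCycle.refl _ _)
      | succ i ih =>
        have h1 := hstep ((σ ^ (i : ℤ)) x)
        have h2 : σ ((σ ^ (i : ℤ)) x) = (σ ^ ((i : ℤ) + 1)) x := by
          rw [add_comm, zpow_add, zpow_one, mul_apply]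
        rw [h2] at h1
        exact htrans _ _ _ ih h1
      | pred i ih =>
        have h1 := hstep ((σ ^ (-(i : ℤ) - 1)) x)
        have h2 : σ ((σ ^ (-(i : ℤ) - 1)) x) = (σ ^ (-(i : ℤ))) x := by
          rw [← mul_apply, ← zpow_one_add]
          congr 2
          ring
        rw [h2] at h1
        exact htrans _ _ _ ih (hsymm _ _ h1)
    exact key n
  · rintro (h1 | ⟨b, hb, b', hb', h1, h2, h3⟩)
    · exact same_of_step (tau_same h) h1
    · exact (same_of_step (tau_same h) h1).trans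
        ((same_of_step (ret_same h) h2).trans (same_of_step (tau_same h) h3))

/-- classes of elements of a set -/
def cl (f : Equiv.Perm S) (X : Set S) : Set (Cyc f) := (Quotient.mk (SameCycle.setoid f)) '' X

theorem mk_eq {f : Equiv.Perm S} {x y : S} :
    (Quotient.mk (SameCycle.setoid f) x : Cyc f) = Quotient.mk (SameCycle.setoid f) y ↔
      f.SameCycle x y := Quotient.eq

theorem card_split [Finite S] (f : Equiv.Perm S) (X Y : Set S)
    (h1 : ∀ s, (∃ x ∈ X, f.SameCycle s x) ∨ (∃ y ∈ Y, f.SameCycle s y))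
    (h2 : ∀ x ∈ X, ∀ y ∈ Y, ¬ f.SameCycle x y) :
    Nat.card (Cyc f) = (cl f X).ncard + (cl f Y).ncard := by
  have hu : cl f X ∪ cl f Y = Set.univ := by
    ext q
    simp only [Set.mem_union, Set.mem_univ, iff_true]
    induction q using Quotient.inductionOn with
    | _ s =>
    rcases h1 s with ⟨x, hx, hs⟩ | ⟨x, hx, hs⟩
    · exact Or.inl ⟨x, hx, (mk_eq.2 hs).symm⟩
    · exact Or.inr ⟨x, hx, (mk_eq.2 hs).symm⟩
  have hd : Disjoint (cl f X) (cl f Y) := by
    rw [Set.disjoint_left]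
    rintro q ⟨x, hx, rfl⟩ ⟨y, hy, hxy⟩
    exact h2 x hx y hy (mk_eq.1 hxy).symm
  rw [← Set.ncard_union_eq hd (Set.toFinite _) (Set.toFinite _), hu, Set.ncard_univ]

theorem card_le [Finite S] (f g : Equiv.Perm S) (X : Set S)
    (h : ∀ x ∈ X, ∀ y ∈ X, g.SameCycle x y → f.SameCycle x y) :
    (cl f X).ncard ≤ (cl g X).ncard := by
  classical
  have hc : ∀ q : Cyc f, ∃ r : Cyc g, q ∈ cl f X → ∃ x ∈ X, Quotient.mk _ x = q ∧
      Quotient.mk _ x = r := by
    intro q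
    by_cases hq : q ∈ cl f X
    · obtain ⟨x, hx, rfl⟩ := hq
      exact ⟨Quotient.mk _ x, fun _ => ⟨x, hx, rfl, rfl⟩⟩
    · obtain ⟨s, rfl⟩ := Quotient.exists_rep q
      exact ⟨Quotient.mk _ s, fun h => absurd h hq⟩
  choose φ hφ using hc
  refine Set.ncard_le_ncard_of_injOn φ ?_ ?_ (Set.toFinite _)
  · intro q hq
    obtain ⟨x, hx, -, h2⟩ := hφ q hq
    exact ⟨x, hx, h2⟩
  · intro q hq r hr hqr
    obtain ⟨x, hx, h1, h2⟩ := hφ q hq
    obtain ⟨y, hy, h3, h4⟩ := hφ r hr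
    rw [← h1, ← h3]
    apply mk_eq.2
    apply h x hx y hy
    rw [← mk_eq, h2, h4, hqr]

theorem card_inj [Finite S] (f : Equiv.Perm S) (X : Set S)
    (h : ∀ x ∈ X, ∀ y ∈ X, f.SameCycle x y → x = y) : (cl f X).ncard = X.ncard := by
  apply Set.InjOn.ncard_image
  intro x hx y hy hxy
  exact h x hx y hy (mk_eq.1 hxy)

end A04

theorem st_A04 : ST_A04 := by
  intro S _ σ ρ B h
  refine ⟨fun x hx y hy => A04.one_mem h hx hy, ?_, A04.same_iff h⟩
  have hst : ∀ x y, (ρ⁻¹ * σ).SameCycle x y → σ.SameCycle x y :=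
    fun x y => A04.same_of_step (A04.tau_same h)
  let T : Set S := {x | ∀ b ∈ B, ¬ σ.SameCycle x b}
  have e1 : Nat.card (Cyc σ) = (A04.cl σ B).ncard + (A04.cl σ T).ncard := by
    apply A04.card_split
    · intro s
      by_cases hs : ∃ b ∈ B, σ.SameCycle s b
      · exact Or.inl hs
      · push Not at hs
        exact Or.inr ⟨s, hs, SameCycle.refl _ _⟩
    · intro x hx y hy hxy
      exact hy x hx hxy.symm
  have e2 : Nat.card (Cyc (ρ⁻¹ * σ)) = (A04.cl (ρ⁻¹ * σ) B).ncard + (A04.cl (ρ⁻¹ * σ) T).ncard := by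
    apply A04.card_split
    · intro s
      by_cases hs : ∃ b ∈ B, (ρ⁻¹ * σ).SameCycle s b
      · exact Or.inl hs
      · right
        refine ⟨s, ?_, SameCycle.refl _ _⟩
        intro b hb hsb
        rcases (A04.same_iff h s b).1 hsb with h1 | ⟨c, hc, -, -, h1, -⟩
        · exact hs ⟨b, hb, h1⟩
        · exact hs ⟨c, hc, h1⟩
    · intro x hx y hy hxy
      exact hy x hx (hst _ _ hxy).symm
  have e3 : Nat.card (Cyc ρ) = (A04.cl ρ B).ncard + (A04.cl ρ Bᶜ).ncard := by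
    apply A04.card_split
    · intro s
      by_cases hs : s ∈ B
      · exact Or.inl ⟨s, hs, SameCycle.refl _ _⟩
      · exact Or.inr ⟨s, hs, SameCycle.refl _ _⟩
    · intro x hx y hy hxy
      obtain ⟨n, hn⟩ := hxy.symm
      rw [zpow_apply_eq_self_of_apply_eq_self (h.1 y hy)] at hn
      exact hy (hn ▸ hx)
  have e4 : (A04.cl σ T).ncard = (A04.cl (ρ⁻¹ * σ) T).ncard := by
    apply le_antisymm
    · exact A04.card_le _ _ _ fun x _ y _ hxy => hst _ _ hxy
    · refine A04.card_le _ _ _ fun x hx y _ hxy => ?_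
      rcases (A04.same_iff h x y).1 hxy with h1 | ⟨c, hc, -, -, h1, -⟩
      · exact h1
      · exact absurd (hst _ _ h1) (hx c hc)
  have e5 : (A04.cl σ B).ncard = (A04.cl ρ B).ncard := by
    apply le_antisymm
    · exact A04.card_le _ _ _ fun x _ y _ hxy => A04.same_of_step (A04.ret_same h) hxy
    · refine A04.card_le _ _ _ fun x hx y hy hxy => ?_
      rcases (A04.same_iff h x y).1 hxy with h1 | ⟨c, hc, c', hc', h1, h2, h3⟩
      · rw [A04.one_mem h hx hy h1]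
      · rw [A04.one_mem h hx hc h1, ← A04.one_mem h hc' hy h3]
        exact h2
  have e6 : (A04.cl (ρ⁻¹ * σ) B).ncard = B.ncard :=
    A04.card_inj _ _ fun x hx y hy => A04.one_mem h hx hy
  have e7 : (A04.cl ρ Bᶜ).ncard = Bᶜ.ncard := by
    apply A04.card_inj
    intro x hx y hy hxy
    obtain ⟨n, hn⟩ := hxy
    rw [zpow_apply_eq_self_of_apply_eq_self (h.1 x hx)] at hn
    exact hn
  have e8 : B.ncard + Bᶜ.ncard = Nat.card S := Set.ncard_add_ncard_compl B
  omega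

end QR
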