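import Pool.Agent.Helper2.QR.A04

/-!
# A12: if few positions are bad, there is a component with many faces and a long boundary
-/

namespace QR

open Equiv.Perm

namespace A12

variable {D : Type}

/-! ## Cycles -/

theorem exists_nat [Finite D] {f : Equiv.Perm D} {x y : D} (h : f.SameCycle x y) :
    ∃ n : ℕ, (f ^ n) x = y := by
  obtain ⟨n, hn⟩ := h
  obtain ⟨N, hN, hfN⟩ := isOfFinOrder_iff_pow_eq_one.1 (isOfFinOrder_of_finite f)
  refine ⟨(n % (N : ℤ)).toNat, ?_⟩
  have h1 : f ^ (((n % (N : ℤ)).toNat : ℕ) : ℤ) = f ^ n := by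
    rw [Int.toNat_of_nonneg (Int.emod_nonneg _ (by omega))]
    conv_rhs => rw [← Int.emod_add_mul_ediv n (N : ℤ)]
    rw [zpow_add, zpow_mul, zpow_natCast f N, hfN, one_zpow, mul_one]
  rw [← hn, ← h1, zpow_natCast]

/-- facts on a cycle of length `T` -/
theorem cycle_facts [Finite D] {f : Equiv.Perm D} {o : D} {T : ℕ}
    (hT : Nat.card {d // f.SameCycle o d} = T) :
    0 < T ∧ (f ^ T) o = o ∧ (∀ d, f.SameCycle o d → ∃ i < T, (f ^ i) o = d) ∧
      (∀ i < T, ∀ j < T, (f ^ i) o = (f ^ j) o → i = j) := by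
  classical
  have hex : ∃ n : ℕ, 1 ≤ n ∧ (f ^ n) o = o := by
    obtain ⟨N, hN, hfN⟩ := isOfFinOrder_iff_pow_eq_one.1 (isOfFinOrder_of_finite f)
    exact ⟨N, hN, by rw [hfN, one_apply]⟩
  let t := Nat.find hex
  have ht : 1 ≤ t ∧ (f ^ t) o = o := Nat.find_spec hex
  have hmin : ∀ n, 1 ≤ n → (f ^ n) o = o → t ≤ n := fun n h1 h2 => Nat.find_min' hex ⟨h1, h2⟩
  have hmod : ∀ n : ℕ, (f ^ n) o = (f ^ (n % t)) o := by
    intro n
    have h1 : ∀ q : ℕ, (f ^ (t * q)) o = o := by
      intro q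
      induction q with
      | zero => simp
      | succ q ih => rw [Nat.mul_succ, pow_add, mul_apply, ht.2, ih]
    conv_lhs => rw [← Nat.mod_add_div n t]
    rw [pow_add, mul_apply, h1]
  have hinj : ∀ i < t, ∀ j < t, (f ^ i) o = (f ^ j) o → i = j := by
    have key : ∀ i j, i ≤ j → j < t → (f ^ i) o = (f ^ j) o → i = j := by
      intro i j hij hj h
      by_contra hne
      have h1 : (f ^ (j - i)) o = o := by
        apply (f ^ i).injective
        rw [← mul_apply, ← pow_add, show i + (j - i) = j by omega, h]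
      have := hmin (j - i) (by omega) h1
      omega
    intro i hi j hj h
    rcases le_total i j with hij | hij
    · exact key i j hij hj h
    · exact (key j i hij hi h.symm).symm
  have hsurj : ∀ d, f.SameCycle o d → ∃ i < t, (f ^ i) o = d := by
    intro d hd
    obtain ⟨n, rfl⟩ := exists_nat hd
    exact ⟨n % t, Nat.mod_lt _ ht.1, (hmod n).symm⟩
  have hcard : Nat.card {d // f.SameCycle o d} = t := by
    have e : Function.Bijective
        (fun i : Fin t => (⟨(f ^ (i : ℕ)) o, ⟨(i : ℕ), by rw [zpow_natCast]⟩⟩ : {d // f.SameCycle o d})) := by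
      constructor
      · intro i j hij
        exact Fin.ext (hinj _ i.2 _ j.2 (congrArg Subtype.val hij))
      · rintro ⟨d, hd⟩
        obtain ⟨i, hi, h⟩ := hsurj d hd
        exact ⟨⟨i, hi⟩, Subtype.ext h⟩
    rw [← Nat.card_eq_of_bijective _ e, Nat.card_eq_fintype_card, Fintype.card_fin]
  have : t = T := by rw [← hcard, hT]
  rw [← this]
  exact ⟨ht.1, ht.2, hsurj, hinj⟩

/-! ## Parts of maps -/

/-- the part of a map on a closed set of darts -/
def sub (m : RMap D) (K : Set D) (hr : ∀ d, m.rot d ∈ K ↔ d ∈ K) (ho : ∀ d, m.opp d ∈ K ↔ d ∈ K) :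
    RMap {d // d ∈ K} where
  rot := m.rot.subtypePerm hr
  opp := m.opp.subtypePerm ho
  opp_opp := by
    intro d
    apply Subtype.ext
    simp only [subtypePerm_apply]
    exact m.opp_opp d
  opp_ne := by
    intro d h
    exact m.opp_ne d (congrArg Subtype.val h)

theorem rtg_symm [Finite D] (m : RMap D) {a b : D}
    (h : Relation.ReflTransGen (fun a b => b = m.rot a ∨ b = m.opp a) a b) :
    Relation.ReflTransGen (fun a b => b = m.rot a ∨ b = m.opp a) b a := by
  induction h with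
  | refl => exact Relation.ReflTransGen.refl
  | tail _ h2 ih =>
    rename_i b c _
    refine Relation.ReflTransGen.trans ?_ ih
    rcases h2 with rfl | rfl
    · obtain ⟨N, hN, hfN⟩ := isOfFinOrder_iff_pow_eq_one.1 (isOfFinOrder_of_finite m.rot)
      have key : ∀ (n : ℕ) (x : D),
          Relation.ReflTransGen (fun a b => b = m.rot a ∨ b = m.opp a) x ((m.rot ^ n) x) := by
        intro n
        induction n with
        | zero => intro x; exact Relation.ReflTransGen.refl
        | succ n ih =>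
          intro x
          refine (ih x).tail ?_
          left
          rw [pow_succ', mul_apply]
      have h1 := key (N - 1) (m.rot b)
      rw [← mul_apply, ← pow_succ, show N - 1 + 1 = N by omega, hfN, one_apply] at h1
      exact h1
    · refine Relation.ReflTransGen.single ?_
      right
      rw [m.opp_opp]

/-- components -/
abbrev Comp (m : RMap D) : Type := Quot (fun a b => b = m.rot a ∨ b = m.opp a)

theorem comp_rot (m : RMap D) (d : D) :
    (Quot.mk _ (m.rot d) : Comp m) = Quot.mk _ d :=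
  (Quot.sound (r := fun a b => b = m.rot a ∨ b = m.opp a) (Or.inl rfl)).symm

theorem comp_opp (m : RMap D) (d : D) :
    (Quot.mk _ (m.opp d) : Comp m) = Quot.mk _ d :=
  (Quot.sound (r := fun a b => b = m.rot a ∨ b = m.opp a) (Or.inr rfl)).symm

/-- the darts of a component -/
def cset (m : RMap D) (q : Comp m) : Set D := {d | (Quot.mk _ d : Comp m) = q}

theorem mem_cset (m : RMap D) (q : Comp m) (d : D) : d ∈ cset m q ↔ (Quot.mk _ d : Comp m) = q :=
  Iff.rfl

theorem cset_rot (m : RMap D) (q : Comp m) (d : D) : m.rot d ∈ cset m q ↔ d ∈ cset m q := by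
  rw [mem_cset, mem_cset, comp_rot]

theorem cset_opp (m : RMap D) (q : Comp m) (d : D) : m.opp d ∈ cset m q ↔ d ∈ cset m q := by
  rw [mem_cset, mem_cset, comp_opp]

theorem conn_sub [Finite D] (m : RMap D) (q : Comp m) :
    (sub m (cset m q) (cset_rot m q) (cset_opp m q)).Conn := by
  have key : ∀ a b : D, Relation.EqvGen (fun a b => b = m.rot a ∨ b = m.opp a) a b →
      ∀ (ha : a ∈ cset m q) (hb : b ∈ cset m q), Relation.ReflTransGen
        (fun a b => b = (sub m (cset m q) (cset_rot m q) (cset_opp m q)).rot a ∨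
          b = (sub m (cset m q) (cset_rot m q) (cset_opp m q)).opp a) ⟨a, ha⟩ ⟨b, hb⟩ := by
    intro a b h
    induction h with
    | rel a b h =>
      intro ha hb
      refine Relation.ReflTransGen.single ?_
      rcases h with h | h
      · left
        exact Subtype.ext h
      · right
        exact Subtype.ext h
    | refl a =>
      intro ha hb
      exact Relation.ReflTransGen.refl
    | symm a b _ ih =>
      intro ha hb
      exact rtg_symm _ (ih hb ha)
    | trans a b c h1 _ ih1 ih2 =>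
      intro ha hc
      have hb : b ∈ cset m q := by
        rw [mem_cset, ← Quot.eqvGen_sound h1]
        exact ha
      exact (ih1 ha hb).trans (ih2 hb hc)
  rintro ⟨a, ha⟩ ⟨b, hb⟩
  refine key a b ?_ ha hb
  apply Quot.eqvGen_exact
  rw [mem_cset] at ha hb
  rw [ha, hb]

theorem sum_ncard [Finite D] (m : RMap D) [Fintype (Comp m)] (X : Set D) :
    ∑ q : Comp m, (cset m q ∩ X).ncard = X.ncard := by
  have h1 : ∀ q : Comp m, (cset m q ∩ X).ncard =
      Nat.card {x : {d // d ∈ X} // (Quot.mk _ (x : D) : Comp m) = q} := by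
    intro q
    rw [← Nat.card_coe_set_eq]
    apply Nat.card_congr
    exact
      { toFun := fun d => ⟨⟨d.1, d.2.2⟩, d.2.1⟩
        invFun := fun d => ⟨d.1.1, d.2, d.1.2⟩
        left_inv := fun _ => rfl
        right_inv := fun _ => rfl }
  simp_rw [h1]
  rw [← Nat.card_sigma, Nat.card_congr
    (Equiv.sigmaFiberEquiv (fun x : {d // d ∈ X} => (Quot.mk _ (x : D) : Comp m)))]
  exact Nat.card_coe_set_eq X

/-! ## The components of the cut map -/

section

variable [Finite D] {m : RMap D} {o : D} {N P : ℕ} {ρ : Equiv.Perm D}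

theorem outer_face {d : D} : m.face d ∈ outer m o ↔ d ∈ outer m o := by
  show m.face.SameCycle o (m.face d) ↔ m.face.SameCycle o d
  exact sameCycle_apply_right

theorem inv_iff (hρ : IsRet m.rot (outer m o) ρ) {d : D} : ρ⁻¹ d ∈ outer m o ↔ d ∈ outer m o := by
  constructor
  · intro h
    have := (hρ.2 _ h).1
    rwa [A04.app_inv] at this
  · exact A04.inv_mem hρ

theorem meets (hq : m.Conn) (hρ : IsRet m.rot (outer m o) ρ) (q : Comp (cut m ρ)) :
    ∃ b ∈ outer m o, b ∈ cset (cut m ρ) q := by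
  by_contra hcon
  push Not at hcon
  obtain ⟨d, hd⟩ := Quot.exists_rep q
  have key : ∀ x, Relation.ReflTransGen (fun a b => b = m.rot a ∨ b = m.opp a) d x →
      x ∈ cset (cut m ρ) q := by
    intro x hx
    induction hx with
    | refl => exact hd
    | tail _ h2 ih =>
      rename_i b c _
      rcases h2 with rfl | rfl
      · have h1 := (cset_rot (cut m ρ) q b).2 ih
        by_cases hb : m.rot b ∈ outer m o
        · exact absurd h1 (hcon _ ((inv_iff hρ).2 hb))
        · rw [show (cut m ρ).rot b = m.rot b from A04.tau_notmem hρ hb] at h1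
          exact h1
      · exact (cset_opp (cut m ρ) q b).2 ih
  exact hcon o (SameCycle.refl _ _) (key o (hq d o))

theorem sub_face (q : Comp m) (d : {d // d ∈ cset m q}) :
    ((sub m (cset m q) (cset_rot m q) (cset_opp m q)).face d : D) = m.face d := rfl

theorem pow_val {p : D → Prop} {f : Equiv.Perm D} {g : Equiv.Perm {d // p d}}
    (h : ∀ d, (g d : D) = f d) (n : ℕ) (d : {d // p d}) : ((g ^ n) d : D) = (f ^ n) d := by
  induction n with
  | zero => rfl
  | succ n ih => rw [pow_succ', mul_apply, h, ih, pow_succ', mul_apply]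

theorem same_val {p : D → Prop} {f : Equiv.Perm D} {g : Equiv.Perm {d // p d}}
    (h : ∀ d, (g d : D) = f d) {x y : {d // p d}} (hxy : g.SameCycle x y) :
    f.SameCycle (x : D) y := by
  obtain ⟨n, hn⟩ := exists_nat hxy
  refine ⟨n, ?_⟩
  rw [zpow_natCast, ← pow_val h, hn]

/-- a component of the cut map, labelled by itself -/
abbrev smap (m : RMap D) (ρ : Equiv.Perm D) (q : Comp (cut m ρ)) :
    RMap {d // d ∈ cset (cut m ρ) q} :=
  sub (cut m ρ) (cset (cut m ρ) q) (cset_rot _ q) (cset_opp _ q)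

theorem info (h6 : ST_A06) (hP : 1 ≤ P) (hq : m.IsQuad o N P)
    (hρ : IsRet m.rot (outer m o) ρ) (q : Comp (cut m ρ)) :
    ∃ n p : ℕ, (cset (cut m ρ) q).ncard = 4 * n + 2 * p ∧
      (cset (cut m ρ) q ∩ outer m o).ncard = 2 * p ∧
      (∀ x (hx : x ∈ cset (cut m ρ) q), x ∈ outer m o → (smap m ρ q).IsQuad ⟨x, hx⟩ n p) ∧
      (∀ x ∈ cset (cut m ρ) q, ∀ y ∈ cset (cut m ρ) q, x ∈ outer m o → y ∈ outer m o →
        (cut m ρ).face.SameCycle x y) := by
  have key : ∀ x (hx : x ∈ cset (cut m ρ) q), x ∈ outer m o →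
      ∃ n p, (cset (cut m ρ) q).ncard = 4 * n + 2 * p ∧
      (cset (cut m ρ) q ∩ outer m o).ncard = 2 * p ∧ (smap m ρ q).IsQuad ⟨x, hx⟩ n p ∧
      (∀ y ∈ cset (cut m ρ) q, y ∈ outer m o → (cut m ρ).face.SameCycle x y) := by
    intro x hx hxo
    obtain ⟨⟨n, p, -, -, -, hQ⟩, -, ho, -⟩ := (h6 D m o N P ρ hP hq hρ).2 _ (smap m ρ q)
      Subtype.val ⟨x, hx⟩ Subtype.val_injective (fun _ => rfl) (fun _ => rfl) (conn_sub _ q) hxo
    refine ⟨n, p, ?_, ?_, hQ, ?_⟩
    · rw [← hQ.card]
      rfl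
    · have h1 : cset (cut m ρ) q ∩ outer m o =
          Subtype.val '' {d : {d // d ∈ cset (cut m ρ) q} | (smap m ρ q).face.SameCycle ⟨x, hx⟩ d} := by
        ext d
        constructor
        · rintro ⟨h1, h2⟩
          exact ⟨⟨d, h1⟩, (ho ⟨d, h1⟩).2 h2, rfl⟩
        · rintro ⟨d', h1, rfl⟩
          exact ⟨d'.2, (ho d').1 h1⟩
      rw [h1, Set.ncard_image_of_injective _ Subtype.val_injective]
      exact hQ.outer
    · intro y hy hyo
      exact same_val (p := fun d => d ∈ cset (cut m ρ) q)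
        (sub_face q) ((ho ⟨y, hy⟩).2 hyo : (smap m ρ q).face.SameCycle ⟨x, hx⟩ ⟨y, hy⟩)
  obtain ⟨b, hb, hbq⟩ := meets hq.planar.2.1 hρ q
  obtain ⟨n, p, h1, h2, -, -⟩ := key b hbq hb
  refine ⟨n, p, h1, h2, ?_, ?_⟩
  · intro x hx hxo
    obtain ⟨n', p', h3, h4, h5, -⟩ := key x hx hxo
    have e1 : p' = p := by omega
    have e2 : n' = n := by omega
    rw [← e1, ← e2]
    exact h5
  · intro x hx y hy hxo hyo
    obtain ⟨_, _, -, -, -, h6⟩ := key x hx hxo
    exact h6 y hy hyo

theorem comp_face {x y : D} (h : m.face.SameCycle x y) :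
    (Quot.mk _ x : Comp m) = Quot.mk _ y := by
  obtain ⟨n, hn⟩ := exists_nat h
  have key : ∀ n : ℕ, (Quot.mk _ ((m.face ^ n) x) : Comp m) = Quot.mk _ x := by
    intro n
    induction n with
    | zero => rfl
    | succ n ih =>
      rw [pow_succ', mul_apply, ← ih]
      show (Quot.mk _ (m.rot (m.opp _)) : Comp m) = _
      rw [comp_rot, comp_opp]
  rw [← hn, key]

/-- the next dart of the outer face in the same component -/
theorem next (h3 : ST_A03) (h6 : ST_A06) (hP : 1 ≤ P) (hq : m.IsQuad o N P)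
    (hρ : IsRet m.rot (outer m o) ρ) {x : D} (hx : x ∈ outer m o) :
    ∃ k : ℕ, 1 ≤ k ∧ k ≤ 2 * P ∧ (cut m ρ).face x = (m.face ^ k) x ∧
      ∀ j, 1 ≤ j → j < k → (Quot.mk _ ((m.face ^ j) x) : Comp (cut m ρ)) ≠ Quot.mk _ x := by
  classical
  have hfx : ∀ d, m.face d ∈ outer m o ↔ d ∈ outer m o := fun d => outer_face
  have hcx : ∀ d, (cut m ρ).face d ∈ outer m o ↔ d ∈ outer m o := by
    intro d
    show ρ⁻¹ (m.face d) ∈ outer m o ↔ _
    rw [inv_iff hρ, outer_face]
  let S : Type := {d // d ∈ outer m o}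
  let ψ : Equiv.Perm S := m.face.subtypePerm hfx
  let c : Equiv.Perm S := (cut m ρ).face.subtypePerm hcx
  have hc : ∀ a b : S, c.SameCycle a b ↔ (Quot.mk _ (a : D) : Comp (cut m ρ)) = Quot.mk _ (b : D) := by
    intro a b
    constructor
    · intro h
      exact comp_face (same_val (f := (cut m ρ).face) (fun _ => rfl) h)
    · intro h
      obtain ⟨n, p, -, -, -, h7⟩ := info h6 hP hq hρ (Quot.mk _ (b : D))
      have h8 := h7 a h b rfl a.2 b.2
      exact sameCycle_subtypePerm.2 h8
  have hψ : ∀ a b : S, ψ.SameCycle a b := by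
    intro a b
    apply sameCycle_subtypePerm.2
    exact SameCycle.trans (SameCycle.symm a.2) b.2
  have hcardc : Nat.card (Cyc c) = Nat.card (Comp (cut m ρ)) := by
    let g : Cyc c → Comp (cut m ρ) := Quotient.lift (fun b : S => Quot.mk _ (b : D))
      (fun a b h => (hc a b).1 h)
    apply Nat.card_eq_of_bijective g
    constructor
    · intro a b
      induction a using Quotient.inductionOn with
      | _ a =>
      induction b using Quotient.inductionOn with
      | _ b =>
      intro h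
      exact Quotient.sound ((hc a b).2 h)
    · intro q
      obtain ⟨b, hb, hbq⟩ := meets hq.planar.2.1 hρ q
      exact ⟨Quotient.mk _ ⟨b, hb⟩, hbq⟩
  have hconj : ∀ a b : S, (c⁻¹ * ψ).SameCycle a b ↔ ρ.SameCycle (m.face a) (m.face b) := by
    have hstep : ∀ a : S, m.face ((c⁻¹ * ψ) a : S) = ρ (m.face a) := by
      intro a
      have h1 : c ((c⁻¹ * ψ) a) = ψ a := by
        rw [mul_apply, A04.app_inv]
      have h2 : ρ⁻¹ (m.face ((c⁻¹ * ψ) a : S)) = m.face a := congrArg Subtype.val h1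
      rw [← h2, A04.app_inv]
    have hpow : ∀ (n : ℕ) (a : S), m.face (((c⁻¹ * ψ) ^ n) a : S) = (ρ ^ n) (m.face a) := by
      intro n
      induction n with
      | zero => intro a; rfl
      | succ n ih =>
        intro a
        rw [pow_succ', mul_apply, hstep, ih, pow_succ', mul_apply]
    intro a b
    constructor
    · intro h
      obtain ⟨n, hn⟩ := exists_nat h
      refine ⟨n, ?_⟩
      rw [zpow_natCast, ← hpow, hn]
    · intro h
      obtain ⟨n, hn⟩ := exists_nat h
      refine ⟨n, ?_⟩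
      rw [zpow_natCast]
      apply Subtype.ext
      apply m.face.injective
      rw [hpow, hn]
  have hcardρ : Nat.card (Cyc (c⁻¹ * ψ)) = (A04.cl ρ (outer m o)).ncard := by
    let g : Cyc (c⁻¹ * ψ) → Cyc ρ := Quotient.lift (fun b : S => Quotient.mk _ (m.face b))
      (fun a b h => Quotient.sound ((hconj a b).1 h))
    have hg : Function.Injective g := by
      intro a b
      induction a using Quotient.inductionOn with
      | _ a =>
      induction b using Quotient.inductionOn with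
      | _ b =>
      intro h
      exact Quotient.sound ((hconj a b).2 (Quotient.exact h))
    have hr : Set.range g = A04.cl ρ (outer m o) := by
      ext q
      constructor
      · rintro ⟨a, rfl⟩
        induction a using Quotient.inductionOn with
        | _ a =>
        exact ⟨m.face a, (hfx _).2 a.2, rfl⟩
      · rintro ⟨b, hb, rfl⟩
        refine ⟨Quotient.mk _ ⟨m.face⁻¹ b, ?_⟩, ?_⟩
        · rw [← hfx, A04.app_inv]
          exact hb
        · show Quotient.mk _ (m.face (m.face⁻¹ b)) = _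
          rw [A04.app_inv]
    rw [← hr, ← Nat.card_coe_set_eq]
    exact (Nat.card_range_of_injective hg).symm
  have e1 := (h6 D m o N P ρ hP hq hρ).1
  have e1' : Nat.card (Comp (cut m ρ)) + Nat.card (Cyc ρ) = Nat.card D + 1 := e1
  have e2 : Nat.card (Cyc ρ) = (A04.cl ρ (outer m o)).ncard + (A04.cl ρ (outer m o)ᶜ).ncard := by
    apply A04.card_split
    · intro s
      by_cases hs : s ∈ outer m o
      · exact Or.inl ⟨s, hs, SameCycle.refl _ _⟩
      · exact Or.inr ⟨s, hs, SameCycle.refl _ _⟩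
    · intro a ha b hb hab
      obtain ⟨n, hn⟩ := hab.symm
      rw [zpow_apply_eq_self_of_apply_eq_self (hρ.1 b hb)] at hn
      exact hb (hn ▸ ha)
  have e3 : (A04.cl ρ (outer m o)ᶜ).ncard = (outer m o)ᶜ.ncard := by
    apply A04.card_inj
    intro a ha b hb hab
    obtain ⟨n, hn⟩ := hab
    rw [zpow_apply_eq_self_of_apply_eq_self (hρ.1 a ha)] at hn
    exact hn
  have e4 : (outer m o).ncard + (outer m o)ᶜ.ncard = Nat.card D := Set.ncard_add_ncard_compl _
  have e5 : Nat.card S = (outer m o).ncard := Nat.card_coe_set_eq _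
  obtain ⟨k, hk1, hk2, hk3⟩ := h3 S c ψ hψ (by omega) ⟨x, hx⟩
  have hpv : ∀ j : ℕ, (((ψ ^ j) ⟨x, hx⟩ : S) : D) = (m.face ^ j) x := fun j =>
    pow_val (f := m.face) (fun _ => rfl) j _
  obtain ⟨-, hT, -, -⟩ := cycle_facts (f := m.face) (o := x) (T := 2 * P) (by
    rw [← hq.outer]
    apply Nat.card_congr
    exact Equiv.subtypeEquivRight fun d => ⟨fun h => SameCycle.trans hx h,
      fun h => SameCycle.trans (SameCycle.symm hx) h⟩)
  refine ⟨k, hk1, ?_, ?_, ?_⟩
  · by_contra hcon
    push Not at hcon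
    apply hk3 (2 * P) (by omega) hcon
    rw [hc, hpv, hT]
  · have := congrArg Subtype.val hk2
    rw [hpv] at this
    exact this
  · intro j hj1 hj2 h
    apply hk3 j hj1 hj2
    rw [hc, hpv, h]

/-- a set closed under the map cut at one pinch point is closed under the cut map -/
theorem side (hρ : IsRet m.rot (outer m o) ρ) {D1 : Set D} {τ : Equiv.Perm D}
    (hτ : ∀ d, d ∉ outer m o → τ⁻¹ d = d)
    (h1 : ∀ d, (cut m τ).rot d ∈ D1 ↔ d ∈ D1) (d : D) : (cut m ρ).rot d ∈ D1 ↔ d ∈ D1 := by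
  have hs : ∀ d, m.rot d ∉ outer m o → (m.rot d ∈ D1 ↔ d ∈ D1) := by
    intro d hd
    rw [← h1 d]
    show m.rot d ∈ D1 ↔ τ⁻¹ (m.rot d) ∈ D1
    rw [hτ _ hd]
  by_cases hd : m.rot d ∈ outer m o
  · have hb : ρ⁻¹ (m.rot d) ∈ outer m o := (inv_iff hρ).2 hd
    obtain ⟨-, k, hk, hkb, hj⟩ := hρ.2 _ hb
    rw [A04.app_inv] at hkb
    have key : ∀ j < k, ((m.rot ^ j) (ρ⁻¹ (m.rot d)) ∈ D1 ↔ ρ⁻¹ (m.rot d) ∈ D1) := by
      intro j
      induction j with
      | zero => intro _; rfl
      | succ j ih =>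
        intro hjk
        rw [← ih (by omega), pow_succ', mul_apply, hs]
        rw [← mul_apply, ← pow_succ']
        exact hj _ (by omega) hjk
    have h2 := key (k - 1) (by omega)
    have h3 : (m.rot ^ (k - 1)) (ρ⁻¹ (m.rot d)) = d := by
      apply m.rot.injective
      rw [← mul_apply, ← pow_succ', show k - 1 + 1 = k by omega, ← hkb]
    rw [h3] at h2
    exact h2.symm
  · rw [show (cut m ρ).rot d = m.rot d from A04.tau_notmem hρ hd]
    exact hs d hd

theorem side_comp (hρ : IsRet m.rot (outer m o) ρ) {D1 : Set D}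
    (h1 : ∀ d, (cut m ρ).rot d ∈ D1 ↔ d ∈ D1) (h2 : ∀ d, m.opp d ∈ D1 ↔ d ∈ D1) {x y : D}
    (h : (Quot.mk _ x : Comp (cut m ρ)) = Quot.mk _ y) : x ∈ D1 ↔ y ∈ D1 := by
  have h3 := congrArg (Quot.lift (fun d => d ∈ D1) (by
    rintro a b (rfl | rfl)
    · exact propext (h1 a).symm
    · exact propext (h2 a).symm)) h
  exact iff_of_eq h3

/-- the long jumps come from pinch points -/
theorem pinch (h3 : ST_A03) (h6 : ST_A06) (h10 : ST_A10) (hP : 1 ≤ P) (hq : m.IsQuad o N P)
    (hρ : IsRet m.rot (outer m o) ρ) {q : Comp (cut m ρ)} {n p : ℕ}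
    (hn : (cset (cut m ρ) q).ncard = 4 * n + 2 * p)
    (hp : (cset (cut m ρ) q ∩ outer m o).ncard = 2 * p) (hNn : N ≤ 2 * P * n) {x : D}
    (hx : x ∈ outer m o) (hxq : x ∈ cset (cut m ρ) q) {t : ℕ} (ht : 1 ≤ t)
    (hno : ∀ j, 1 ≤ j → j ≤ t → (m.face ^ j) x ∉ cset (cut m ρ) q) :
    ∃ κ N1 : ℕ, 1 ≤ κ ∧ κ < P ∧ t ≤ 2 * κ ∧ N1 ≤ N ∧ N ≤ 2 * P * (N - N1) ∧
      Pinch m (m.face x) κ N1 := by
  classical
  obtain ⟨k, hk1, hk2, hkx, hkj⟩ := next h3 h6 hP hq hρ hx
  have hcx : (m.face ^ k) x ∈ cset (cut m ρ) q := by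
    rw [← hkx, mem_cset, ← hxq, ← comp_face (m := cut m ρ) (x := x) (y := (cut m ρ).face x)]
    exact (SameCycle.refl _ x).apply_right
  have htk : t < k := by
    by_contra hcon
    push Not at hcon
    exact hno k hk1 hcon hcx
  -- the root of the arc
  have hy : m.face x ∈ outer m o := outer_face.2 hx
  have hyl : (m.face ^ (k - 1)) (m.face x) = (m.face ^ k) x := by
    rw [← mul_apply, ← pow_succ, show k - 1 + 1 = k by omega]
  have hQy : m.IsQuad (m.face x) N P := by
    refine ⟨hq.planar, ?_, ?_, hq.card⟩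
    · rw [← hq.outer]
      apply Nat.card_congr
      exact Equiv.subtypeEquivRight fun d => ⟨fun h => SameCycle.trans hy h,
        fun h => SameCycle.trans (SameCycle.symm hy) h⟩
    · intro d hd
      apply hq.inner
      intro h
      exact hd (SameCycle.trans (SameCycle.symm hy) h)
  have hy2 : (m.face ^ k) x ∈ outer m o := by
    have : ∀ j : ℕ, (m.face ^ j) x ∈ outer m o := by
      intro j
      induction j with
      | zero => exact hx
      | succ j ih =>
        rw [pow_succ', mul_apply]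
        exact outer_face.2 ih
    exact this k
  have htail : m.tail (m.face x) = m.tail ((m.face ^ (k - 1)) (m.face x)) := by
    rw [hyl]
    have h1 := A04.ret_same hρ ((m.face ^ k) x)
    rw [← hkx, show (cut m ρ).face x = ρ⁻¹ (m.face x) from rfl, A04.app_inv] at h1
    rw [← hkx, show (cut m ρ).face x = ρ⁻¹ (m.face x) from rfl]
    exact Quotient.sound (SameCycle.symm h1)
  obtain ⟨D1, κ, N1, N2, hl, hN12, ho1, ho2, hD1, hopp, hrot, -⟩ :=
    h10 D m (m.face x) N P (k - 1) hP hQy (by omega) (by omega) htail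
  have hside : ∀ d, (cut m ρ).rot d ∈ D1 ↔ d ∈ D1 := by
    refine side (o := o) hρ (τ := Equiv.swap (m.face x) ((m.face ^ (k - 1)) (m.face x))) ?_ ?_
    · intro d hd
      rw [Equiv.swap_inv, Equiv.swap_apply_of_ne_of_ne]
      · rintro rfl
        exact hd hy
      · rintro rfl
        rw [hyl] at hd
        exact hd hy2
    · intro d
      convert hrot d
  have hK : ∀ d ∈ cset (cut m ρ) q, d ∉ D1 := by
    intro d hd hd1
    apply ho2
    rw [hyl]
    exact (side_comp hρ hside hopp (hd.trans hcx.symm)).1 hd1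
  -- the outer darts after the arc
  obtain ⟨-, hT, hsur, hinj⟩ := cycle_facts hQy.outer
  have hout : ∀ i, k - 1 ≤ i → i < 2 * P → (m.face ^ i) (m.face x) ∉ D1 := by
    intro i hi
    induction i, hi using Nat.le_induction with
    | base => intro _; exact ho2
    | succ i hi ih =>
      intro hi2
      have h1 := ih (by omega)
      intro h2
      apply h1
      rw [← hopp, ← hrot]
      show (Equiv.swap (m.face x) ((m.face ^ (k - 1)) (m.face x)))⁻¹
        (m.face ((m.face ^ i) (m.face x))) ∈ D1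
      have h3 : m.face ((m.face ^ i) (m.face x)) = (m.face ^ (i + 1)) (m.face x) := by
        rw [pow_succ', mul_apply]
      rw [h3, Equiv.swap_inv, Equiv.swap_apply_of_ne_of_ne]
      · exact h2
      · intro h4
        have := hinj (i + 1) hi2 0 (by omega) (by rw [h4, pow_zero, one_apply])
        omega
      · intro h4
        have := hinj (i + 1) hi2 (k - 1) (by omega) h4
        omega
  have hfin : ∀ X : Set D, X.Finite := fun X => Set.toFinite X
  have hpow : ∀ i : ℕ, (m.face ^ i) (m.face x) ∈ outer m o := by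
    intro i
    induction i with
    | zero => exact hy
    | succ i ih =>
      rw [pow_succ', mul_apply]
      exact outer_face.2 ih
  have c1 : 2 * P - (k - 1) ≤ (D1ᶜ ∩ outer m o).ncard := by
    have h1 : ((fun i => (m.face ^ i) (m.face x)) '' (Set.Ico (k - 1) (2 * P))).ncard =
        2 * P - (k - 1) := by
      rw [Set.InjOn.ncard_image, Set.ncard_eq_toFinset_card', Set.toFinset_Ico, Nat.card_Ico]
      intro i hi j hj hij
      exact hinj i hi.2 j hj.2 hij
    rw [← h1]
    apply Set.ncard_le_ncard _ (hfin _)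
    rintro _ ⟨i, hi, rfl⟩
    exact ⟨hout i hi.1 hi.2, hpow i⟩
  have c2 : (D1ᶜ ∩ outer m o).ncard + (D1ᶜ \ outer m o).ncard = D1ᶜ.ncard :=
    Set.ncard_inter_add_ncard_diff_eq_ncard _ _ (hfin _)
  have c3 : (cset (cut m ρ) q ∩ outer m o).ncard + (cset (cut m ρ) q \ outer m o).ncard =
      (cset (cut m ρ) q).ncard := Set.ncard_inter_add_ncard_diff_eq_ncard _ _ (hfin _)
  have c4 : (cset (cut m ρ) q \ outer m o).ncard ≤ (D1ᶜ \ outer m o).ncard := by
    apply Set.ncard_le_ncard _ (hfin _)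
    intro d hd
    exact ⟨hK d hd.1, hd.2⟩
  have c5 : D1.ncard + D1ᶜ.ncard = Nat.card D := Set.ncard_add_ncard_compl _
  have c6 : D1.ncard = 4 * N1 + 2 * κ := by
    rw [← hD1]
    exact (Nat.card_coe_set_eq D1).symm
  have c7 := hq.card
  refine ⟨κ, N1, by omega, by omega, by omega, by omega, ?_, ?_⟩
  · refine hNn.trans (Nat.mul_le_mul_left _ ?_)
    omega
  · rw [Pinch]
    rw [hl] at htail ho2
    refine ⟨htail, D1, ho1, ho2, hD1, hopp, ?_⟩
    intro d
    have := hrot d
    rw [hl] at this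
    exact this

end

end A12

open A12 in
theorem st_A12 (h3 : ST_A03) (h6 : ST_A06) (h10 : ST_A10) : ST_A12 := by
  intro D _ m o N P L ρ hP hL hq hρ hbad
  classical
  have hCf : Finite (Comp (cut m ρ)) := Quot.finite _
  have hCF : Fintype (Comp (cut m ρ)) := Fintype.ofFinite _
  choose n p hn hp hQ hS using fun q => info h6 hP hq hρ (q := q)
  obtain ⟨-, hT, hsur, hinj⟩ := cycle_facts hq.outer
  have hout : (outer m o).ncard = 2 * P := by
    rw [← hq.outer]
    exact (Nat.card_coe_set_eq _).symm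
  -- sums over the components
  have s1 : ∑ q, (4 * n q + 2 * p q) = 4 * N + 2 * P := by
    have h := sum_ncard (cut m ρ) Set.univ
    simp only [Set.inter_univ, hn, Set.ncard_univ] at h
    rw [h, hq.card]
  have s2 : ∑ q, 2 * p q = 2 * P := by
    have h := sum_ncard (cut m ρ) (outer m o)
    simp only [hp] at h
    rw [h, hout]
  have s3 : ∑ q, n q = N := by
    rw [Finset.sum_add_distrib, s2, ← Finset.mul_sum] at s1
    omega
  have s4 : Fintype.card (Comp (cut m ρ)) ≤ 2 * P := by
    rw [← hout, ← Nat.card_coe_set_eq, ← Nat.card_eq_fintype_card]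
    apply Nat.card_le_card_of_surjective (fun b : outer m o => (Quot.mk _ (b : D) : Comp (cut m ρ)))
    intro q
    obtain ⟨b, hb, hbq⟩ := meets hq.planar.2.1 hρ q
    exact ⟨⟨b, hb⟩, hbq⟩
  obtain ⟨q, hNn⟩ : ∃ q, N ≤ 2 * P * n q := by
    by_contra hcon
    push Not at hcon
    have h1 : ∑ q : Comp (cut m ρ), 2 * P * n q < ∑ q : Comp (cut m ρ), N :=
      Finset.sum_lt_sum_of_nonempty ⟨Quot.mk _ o, Finset.mem_univ _⟩ fun q _ => hcon q
    rw [← Finset.mul_sum, s3, Finset.sum_const, Finset.card_univ, smul_eq_mul] at h1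
    have h2 := Nat.mul_le_mul_right N s4
    omega
  -- good positions
  have hgood : ∀ i : Fin (2 * P), ¬ BadPos m o N P L ((i : ℕ) : ℤ) →
      ∃ (x : D) (t : ℕ), x ∈ cset (cut m ρ) q ∩ outer m o ∧ t < 2 * L + 1 ∧
        (m.face ^ t) x = (m.face ^ (i : ℕ)) o := by
    intro i hi
    obtain ⟨b, hb, hbq⟩ := meets hq.planar.2.1 hρ q
    have hz : ((m.face ^ (i : ℕ)) o) ∈ outer m o := ⟨(i : ℕ), by rw [zpow_natCast]⟩
    have hex : ∃ t : ℕ, (m.face ^ (-(t : ℤ))) ((m.face ^ (i : ℕ)) o) ∈ cset (cut m ρ) q := by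
      obtain ⟨t, ht⟩ := exists_nat (f := m.face) (x := b) (y := (m.face ^ (i : ℕ)) o)
        (SameCycle.trans (SameCycle.symm hb) hz)
      refine ⟨t, ?_⟩
      rw [← ht, zpow_neg, zpow_natCast, A04.inv_app]
      exact hbq
    let t := Nat.find hex
    have ht := Nat.find_spec hex
    have hmin : ∀ s < t, (m.face ^ (-(s : ℤ))) ((m.face ^ (i : ℕ)) o) ∉ cset (cut m ρ) q :=
      fun s hs => Nat.find_min hex hs
    let x : D := (m.face ^ (-(t : ℤ))) ((m.face ^ (i : ℕ)) o)
    have hxq : x ∈ cset (cut m ρ) q := ht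
    have hxo : x ∈ outer m o := SameCycle.trans hz ⟨-(t : ℤ), rfl⟩
    have hxt : ∀ j : ℕ, j ≤ t → (m.face ^ j) x =
        (m.face ^ (-((t - j : ℕ) : ℤ))) ((m.face ^ (i : ℕ)) o) := by
      intro j hj
      show (m.face ^ j) ((m.face ^ (-(t : ℤ))) _) = _
      rw [← zpow_natCast m.face j, ← mul_apply, ← zpow_add]
      congr 2
      omega
    have hxt0 : (m.face ^ t) x = (m.face ^ (i : ℕ)) o := by
      rw [hxt t le_rfl, Nat.sub_self]
      rfl
    by_cases ht0 : t = 0
    · refine ⟨x, 0, ⟨hxq, hxo⟩, by omega, ?_⟩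
      rw [← hxt0, ht0]
    · obtain ⟨κ, N1, hκ1, hκP, htκ, hN1, hNN, hpi⟩ := pinch h3 h6 h10 hP hq hρ (hn q) (hp q) hNn
        hxo hxq (t := t) (by omega) (by
          intro j hj1 hj2
          rw [hxt j hj2]
          exact hmin _ (by omega))
      refine ⟨x, t, ⟨hxq, hxo⟩, ?_, hxt0⟩
      by_contra hcon
      apply hi
      refine ⟨((i : ℕ) : ℤ) - t + 1, κ, N1, by omega, hκ1, hκP, by omega, by omega, hN1, hNN, ?_⟩
      have e : (m.face ^ (((i : ℕ) : ℤ) - t + 1)) o = m.face x := by
        have e1 : m.face ^ (((i : ℕ) : ℤ) - t + 1) =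
            m.face * (m.face ^ (-(t : ℤ)) * m.face ^ (i : ℕ)) := by
          rw [← zpow_natCast m.face (i : ℕ), ← zpow_add, ← zpow_one_add]
          congr 1
          ring
        rw [e1, mul_apply, mul_apply]
      rw [e]
      exact hpi
  have hcount : Nat.card {i : Fin (2 * P) // ¬ BadPos m o N P L ((i : ℕ) : ℤ)} ≤
      (cset (cut m ρ) q ∩ outer m o).ncard * (2 * L + 1) := by
    have hg : ∀ i : {i : Fin (2 * P) // ¬ BadPos m o N P L ((i : ℕ) : ℤ)},
        ∃ (x : D) (t : ℕ), x ∈ cset (cut m ρ) q ∩ outer m o ∧ t < 2 * L + 1 ∧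
        (m.face ^ t) x = (m.face ^ (i.1 : ℕ)) o := fun i => hgood i.1 i.2
    choose x t h1 h2 h3' using hg
    rw [← Nat.card_coe_set_eq, show 2 * L + 1 = Nat.card (Fin (2 * L + 1)) by
      rw [Nat.card_eq_fintype_card, Fintype.card_fin], ← Nat.card_prod]
    apply Nat.card_le_card_of_injective
      (fun i : {i : Fin (2 * P) // ¬ BadPos m o N P L ((i : ℕ) : ℤ)} =>
        ((⟨x i, h1 i⟩ : (cset (cut m ρ) q ∩ outer m o : Set D)),
          (⟨t i, h2 i⟩ : Fin (2 * L + 1))))
    intro i j hij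
    simp only [Prod.mk.injEq, Subtype.mk.injEq, Fin.mk.injEq] at hij
    apply Subtype.ext
    apply Fin.ext
    apply hinj _ i.1.2 _ j.1.2
    rw [← h3' i, ← h3' j, hij.1, hij.2]
  have htot : Nat.card {i : Fin (2 * P) // BadPos m o N P L ((i : ℕ) : ℤ)} +
      Nat.card {i : Fin (2 * P) // ¬ BadPos m o N P L ((i : ℕ) : ℤ)} = 2 * P := by
    rw [← Nat.card_sum, Nat.card_congr (Equiv.sumCompl _), Nat.card_eq_fintype_card,
      Fintype.card_fin]
  rw [hp q] at hcount
  have hmain : P ≤ 2 * p q * (2 * L + 1) := by omega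
  refine ⟨n q, p q, hNn, ?_, ?_⟩
  · calc P ≤ 2 * p q * (2 * L + 1) := hmain
      _ = 2 * (1 + 2 * L) * p q := by ring
  · refine hmain.trans ?_
    rw [mul_comm, show 2 * L + 1 = 1 + 2 * L by ring]
    apply Nat.mul_le_mul_left
    rw [← hp q, ← Nat.card_coe_set_eq]
    have hpos : ∀ x : (cset (cut m ρ) q ∩ outer m o : Set D), ∃ i : Fin (2 * P),
        (m.face ^ (i : ℕ)) o = x := by
      intro x
      obtain ⟨i, hi, h⟩ := hsur x x.2.2
      exact ⟨⟨i, hi⟩, h⟩
    choose i hi using hpos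
    refine Nat.card_le_card_of_injective (fun x => ⟨i x, ⟨_, inferInstance, smap m ρ q,
      Subtype.val, ⟨x, x.2.1⟩, Subtype.val_injective, fun _ => rfl, fun _ => rfl,
      conn_sub _ q, (hi x).symm, hQ q x x.2.1 x.2.2⟩⟩) ?_
    intro x y hxy
    have := congrArg Subtype.val hxy
    simp only at this
    apply Subtype.ext
    rw [← hi x, ← hi y, this]

end QR
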