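import Pool.Agent.Helper98.QR.StmtsE
import Pool.Agent.Helper2.QR.A12

/-!
# E10: disc model of the glueing of two quadrangulations
-/

namespace QR

open Equiv.Perm

namespace E10

/-! ## Transport of disc models -/

theorem deg_equiv {V W : Type} {c : V → V → ℕ} {c' : W → W → ℕ} (e : V ≃ W)
    (h : ∀ x y, c x y = c' (e x) (e y)) (x : V) : SPR.deg c x = SPR.deg c' (e x) := by
  unfold SPR.deg
  rw [← finsum_comp_equiv e]
  exact finsum_congr fun y => h x y

theorem dm_equiv {K : ℝ} {V W : Type} {c : V → V → ℕ} {c' : W → W → ℕ} (e : V ≃ W)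
    (h : ∀ x y, c x y = c' (e x) (e y)) (M : SPR.DiscModel K c) : Nonempty (SPR.DiscModel K c') := by
  classical
  have hown : ∀ (d : Fin M.N) (v : W), e (M.own d) = v ↔ M.own d = e.symm v := by
    intro d v
    rw [← e.eq_symm_apply]
  have hdeg : ∀ v : W, SPR.deg c' v = SPR.deg c (e.symm v) := by
    intro v
    rw [deg_equiv e h, e.apply_symm_apply]
  refine ⟨⟨M.N, M.ctr, M.rad, fun d => e (M.own d), fun v => M.root (e.symm v), M.par, M.depth, M.e,
    M.rad_pos, M.disj, ?_, ?_, ?_, ?_, M.depth_par, M.par_touch, M.e_symm, M.e_touch, ?_, ?_, ?_⟩⟩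
  · intro v
    rw [M.own_root, e.apply_symm_apply]
  · intro v
    exact M.par_root _
  · intro d
    rw [e.symm_apply_apply]
    exact M.depth_eq_zero d
  · intro d
    rw [M.own_par]
  · intro u v
    have h1 := M.e_sum (e.symm u) (e.symm v)
    rw [h, e.apply_symm_apply, e.apply_symm_apply] at h1
    rw [← h1]
    exact Finset.sum_congr (Finset.filter_congr fun d _ => hown d u) fun d _ =>
      Finset.sum_congr (Finset.filter_congr fun d _ => hown d v) fun _ _ => rfl
  · intro v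
    have h1 := M.size (e.symm v)
    rw [hdeg]
    refine le_trans (le_of_eq ?_) h1
    exact congrArg _ (congrArg Finset.card (Finset.filter_congr fun d _ => hown d v))
  · intro d
    have h1 := M.balance d
    rw [hdeg, e.symm_apply_apply]
    exact h1

/-- the disc model of an isolated vertex -/
theorem dm_unit {K : ℝ} (hK : 1 ≤ K) :
    Nonempty (SPR.DiscModel K (fun _ _ : Unit => 0)) := by
  refine ⟨⟨1, fun _ => 0, fun _ => 1, fun _ => (), fun _ => 0, fun _ => 0, fun _ => 0,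
    fun _ _ => 0, ?_, ?_, ?_, ?_, ?_, ?_, ?_, ?_, ?_, ?_, ?_, ?_, ?_⟩⟩
  · intro _; norm_num
  · intro d d' h
    exact absurd (Subsingleton.elim d d') h
  · intro v; rfl
  · intro v; rfl
  · intro d
    exact ⟨fun _ => Subsingleton.elim _ _, fun _ => rfl⟩
  · intro d; rfl
  · intro d h
    exact absurd rfl h
  · intro d h
    exact absurd rfl h
  · intro d d'; rfl
  · intro d d' h
    exact absurd rfl h
  · intro u v
    simp
  · intro v
    have h1 : SPR.deg (fun _ _ : Unit => 0) v = 0 := by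
      unfold SPR.deg
      simp
    rw [h1]
    simp
    linarith
  · intro d
    simp
    exact mul_nonneg (by linarith) (Nat.cast_nonneg _)

/-- the types of the components: the model and the isolated vertices -/
def VT {V : Type} (W : Type) (J : Set V) : Option J → Type
  | none => W
  | some _ => Unit

def cT {V W : Type} (c' : W → W → ℕ) (J : Set V) : ∀ i : Option J, VT W J i → VT W J i → ℕ
  | none => c'
  | some _ => fun _ _ => 0

instance {V W : Type} (J : Set V) [Finite W] (i : Option J) : Finite (VT W J i) := by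
  cases i with
  | none => exact (inferInstance : Finite W)
  | some _ => exact (inferInstance : Finite Unit)

theorem sigC_same {ι : Type} {V : ι → Type} (c : ∀ i, V i → V i → ℕ) (i : ι) (u v : V i) :
    sigC c ⟨i, u⟩ ⟨i, v⟩ = c i u v := by
  unfold sigC
  simp

theorem sigC_ne {ι : Type} {V : ι → Type} (c : ∀ i, V i → V i → ℕ) {i j : ι} (u : V i) (v : V j)
    (h : i ≠ j) : sigC c ⟨i, u⟩ ⟨j, v⟩ = 0 := by
  unfold sigC
  rw [dif_neg h]

theorem add_junk (h11 : ST_E11) {K : ℝ} (hK : 1 ≤ K) {V W : Type} [Finite V] [Finite W]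
    (c : V → V → ℕ) (c' : W → W → ℕ) (J : Set V) (Φ : {v // v ∉ J} → W)
    (hΦ : Function.Bijective Φ) (hc : ∀ x y : {v // v ∉ J}, c x y = c' (Φ x) (Φ y))
    (hJ1 : ∀ x ∈ J, ∀ y, c x y = 0) (hJ2 : ∀ x, ∀ y ∈ J, c x y = 0)
    (h : Nonempty (SPR.DiscModel K c')) : Nonempty (SPR.DiscModel K c) := by
  have h1 := h11 K (Option J) (VT W J) (cT c' J) hK (by
    intro i
    cases i with
    | none => exact h
    | some _ => exact dm_unit hK)
  obtain ⟨M⟩ := h1
  let Ψ : {v // v ∉ J} ≃ W := Equiv.ofBijective Φ hΦ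
  let g : (Σ i, VT W J i) → V := fun x => match x with
    | ⟨none, w⟩ => (Ψ.symm w : V)
    | ⟨some j, _⟩ => j
  have hg : Function.Bijective g := by
    constructor
    · rintro ⟨_ | i, a⟩ ⟨_ | j, b⟩ hab
      · have : (Ψ.symm a : V) = Ψ.symm b := hab
        have h2 := Ψ.symm.injective (Subtype.ext this)
        rw [h2]
      · exfalso
        have h2 : (Ψ.symm a : V) = j := hab
        exact (Ψ.symm a).2 (h2 ▸ j.2)
      · exfalso
        have h2 : (i : V) = Ψ.symm b := hab
        exact (Ψ.symm b).2 (h2 ▸ i.2)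
      · have h2 : i = j := Subtype.ext hab
        subst h2
        rfl
    · intro v
      by_cases hv : v ∈ J
      · exact ⟨⟨some ⟨v, hv⟩, ()⟩, rfl⟩
      · refine ⟨⟨none, Ψ ⟨v, hv⟩⟩, ?_⟩
        show (Ψ.symm (Ψ ⟨v, hv⟩) : V) = v
        rw [Ψ.symm_apply_apply]
  refine dm_equiv (Equiv.ofBijective g hg) ?_ M
  rintro ⟨_ | i, a⟩ ⟨_ | j, b⟩
  · rw [sigC_same]
    show c' a b = c (Ψ.symm a) (Ψ.symm b)
    rw [hc]
    exact congrArg₂ c' (Ψ.apply_symm_apply a).symm (Ψ.apply_symm_apply b).symm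
  · rw [sigC_ne _ _ _ (by simp)]
    exact (hJ2 _ _ j.2).symm
  · rw [sigC_ne _ _ _ (by simp)]
    exact (hJ1 _ i.2 _).symm
  · by_cases hij : i = j
    · subst hij
      rw [sigC_same]
      exact (hJ1 _ i.2 _).symm
    · rw [sigC_ne _ _ _ (by simpa using hij)]
      exact (hJ1 _ i.2 _).symm

/-! ## Maps -/

section

variable {D : Type}

theorem tail_face (m : RMap D) (d : D) : m.tail (m.face d) = m.tail (m.opp d) :=
  Quotient.sound ((SameCycle.refl m.rot (m.opp d)).apply_right.symm)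

theorem mult_symm (m : RMap D) (X Y : m.Vert) : m.mult X Y = m.mult Y X := by
  apply Nat.card_congr
  exact
    { toFun := fun d => ⟨m.opp d.1, d.2.2, by rw [m.opp_opp]; exact d.2.1⟩
      invFun := fun d => ⟨m.opp d.1, d.2.2, by rw [m.opp_opp]; exact d.2.1⟩
      left_inv := fun d => Subtype.ext (m.opp_opp _)
      right_inv := fun d => Subtype.ext (m.opp_opp _) }

theorem mult_ncard (m : RMap D) (X Y : m.Vert) :
    m.mult X Y = {d : D | m.tail d = X ∧ m.tail (m.opp d) = Y}.ncard :=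
  Nat.card_coe_set_eq _

theorem card_same [Finite D] {m : RMap D} {o e : D} (h : m.face.SameCycle o e) :
    m.fdeg e = m.fdeg o := by
  apply Nat.card_congr
  exact Equiv.subtypeEquivRight fun d => ⟨fun h1 => SameCycle.trans h h1,
    fun h1 => SameCycle.trans (SameCycle.symm h) h1⟩

theorem noopp [Finite D] {m : RMap D} {o : D} {p : ℕ} (hp : 2 ≤ p) (hs : m.Simple o)
    (hd : m.fdeg o = 2 * p) {e : D} (he : m.face.SameCycle o e) :
    ¬ m.face.SameCycle o (m.opp e) := by
  intro he2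
  have h1 : m.face e = m.opp e :=
    hs _ _ (SameCycle.trans he (SameCycle.refl m.face e).apply_right) he2 (tail_face m e)
  have h2 : m.face (m.opp e) = e := by
    apply hs _ _ (SameCycle.trans he2 (SameCycle.refl m.face (m.opp e)).apply_right) he
    rw [tail_face, m.opp_opp]
  have h3 : Nat.card {d // m.face.SameCycle e d} = 2 * p := by
    rw [← hd]
    exact card_same he
  obtain ⟨-, -, -, hinj⟩ := A12.cycle_facts h3
  have := hinj 2 (by omega) 0 (by omega) (by
    rw [pow_two, mul_apply, h1, h2, pow_zero, one_apply])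
  omega

/-- the face of an inner dart in the glued map -/
theorem fdeg_image {D' : Type} [Finite D] [Finite D'] (m : RMap D) (m' : RMap D') (o : D)
    (j : D → D')
    (hj : ∀ d d', ¬ m.face.SameCycle o d → ¬ m.face.SameCycle o d' → j d = j d' → d = d')
    (hf : ∀ d, ¬ m.face.SameCycle o d → m'.face (j d) = j (m.face d)) (d : D)
    (hd : ¬ m.face.SameCycle o d) : m'.fdeg (j d) = m.fdeg d := by
  have hin : ∀ n : ℕ, ¬ m.face.SameCycle o ((m.face ^ n) d) := by
    intro n h
    apply hd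
    exact SameCycle.trans h (SameCycle.symm ⟨n, by rw [zpow_natCast]⟩)
  have hpow : ∀ n : ℕ, (m'.face ^ n) (j d) = j ((m.face ^ n) d) := by
    intro n
    induction n with
    | zero => rfl
    | succ n ih => rw [pow_succ', mul_apply, ih, hf _ (hin n), pow_succ', mul_apply]
  have h1 : {x | m'.face.SameCycle (j d) x} = j '' {x | m.face.SameCycle d x} := by
    ext x
    constructor
    · intro hx
      obtain ⟨n, hn⟩ := A12.exists_nat hx
      refine ⟨(m.face ^ n) d, ⟨n, by rw [zpow_natCast]⟩, ?_⟩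
      rw [← hpow, hn]
    · rintro ⟨x, hx, rfl⟩
      obtain ⟨n, rfl⟩ := A12.exists_nat hx
      exact ⟨n, by rw [zpow_natCast, hpow]⟩
  have h2 : m'.fdeg (j d) = {x | m'.face.SameCycle (j d) x}.ncard := Nat.card_coe_set_eq _
  have h3 : m.fdeg d = {x | m.face.SameCycle d x}.ncard := Nat.card_coe_set_eq _
  rw [h2, h3, h1, Set.InjOn.ncard_image]
  intro x hx y hy hxy
  refine hj x y ?_ ?_ hxy
  · exact fun h => hd (SameCycle.trans h (SameCycle.symm hx))
  · exact fun h => hd (SameCycle.trans h (SameCycle.symm hy))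

/-- the edges which are not boundary edges -/
def EE (m : RMap D) (o : D) (e : D) : Prop :=
  ¬ m.face.SameCycle o e ∧ ¬ m.face.SameCycle o (m.opp e)

/-- number of edges between two vertices which are not boundary edges -/
noncomputable def cE (m : RMap D) (o : D) (w w' : m.Vert) : ℕ :=
  {e : D | EE m o e ∧ m.tail e = w ∧ m.tail (m.opp e) = w'}.ncard

theorem cE_add [Finite D] (m : RMap D) (o : D) (w w' : m.Vert) :
    cE m o w w' + {e : D | ¬ EE m o e ∧ m.tail e = w ∧ m.tail (m.opp e) = w'}.ncard =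
      m.mult w w' := by
  rw [mult_ncard, cE, ← Set.ncard_union_eq]
  · congr 1
    ext e
    simp only [Set.mem_union, Set.mem_ofPred_eq]
    tauto
  · rw [Set.disjoint_left]
    rintro e ⟨h1, -⟩ ⟨h2, -⟩
    exact h2 h1

theorem bdry_tail {m : RMap D} {o e : D} (h : m.face.SameCycle o e) :
    m.tail e ∈ Set.range (m.bg o).b := by
  obtain ⟨i, rfl⟩ := h
  exact ⟨i, rfl⟩

theorem bdry_head {m : RMap D} {o e : D} (h : m.face.SameCycle o e) :
    m.tail (m.opp e) ∈ Set.range (m.bg o).b := by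
  rw [← tail_face]
  exact bdry_tail (SameCycle.trans h (SameCycle.refl m.face e).apply_right)

theorem cE_inner [Finite D] (m : RMap D) (o : D) (w w' : m.Vert)
    (h : w ∉ Set.range (m.bg o).b ∨ w' ∉ Set.range (m.bg o).b) : cE m o w w' = m.mult w w' := by
  rw [← cE_add m o w w']
  have : {e : D | ¬ EE m o e ∧ m.tail e = w ∧ m.tail (m.opp e) = w'} = ∅ := by
    rw [Set.eq_empty_iff_forall_notMem]
    rintro e ⟨h1, rfl, rfl⟩
    rw [EE, not_and_or, not_not, not_not] at h1
    rcases h1 with h1 | h1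
    · rcases h with h | h
      · exact h (bdry_tail h1)
      · exact h (bdry_head h1)
    · rcases h with h | h
      · apply h
        have := bdry_head h1
        rwa [m.opp_opp] at this
      · exact h (bdry_tail h1)
  rw [this, Set.ncard_empty, add_zero]

theorem face_zpow (m : RMap D) (o : D) (k : ℤ) : m.face ((m.face ^ k) o) = (m.face ^ (k + 1)) o := by
  rw [← mul_apply, ← zpow_one_add, add_comm]

open Classical in
theorem cE_bdry [Finite D] {m : RMap D} {o : D} {p : ℕ} (hp : 2 ≤ p) (hs : m.Simple o)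
    (hper : ∀ i j : ℤ, (m.bg o).b i = (m.bg o).b j ↔ (2 * (p : ℤ)) ∣ i - j) (k l : ℤ) :
    cE m o ((m.bg o).b k) ((m.bg o).b l) +
      (if (m.bg o).b (k + 1) = (m.bg o).b l ∨ (m.bg o).b (l + 1) = (m.bg o).b k then 1 else 0) =
      m.mult ((m.bg o).b k) ((m.bg o).b l) := by
  rw [← cE_add m o]
  congr 1
  have hb : ∀ i : ℤ, (m.bg o).b i = m.tail ((m.face ^ i) o) := fun i => rfl
  have hbo : ∀ i : ℤ, m.tail (m.opp ((m.face ^ i) o)) = (m.bg o).b (i + 1) := by
    intro i
    rw [← tail_face, face_zpow]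
    rfl
  have ho : ∀ i : ℤ, m.face.SameCycle o ((m.face ^ i) o) := fun i => ⟨i, rfl⟩
  have hout : ∀ e i, m.face.SameCycle o e → m.tail e = (m.bg o).b i → e = (m.face ^ i) o :=
    fun e i h1 h2 => hs _ _ h1 (ho i) h2
  have hno : ¬ ((m.bg o).b (k + 1) = (m.bg o).b l ∧ (m.bg o).b (l + 1) = (m.bg o).b k) := by
    rintro ⟨h1, h2⟩
    rw [hper] at h1 h2
    have h3 := dvd_add h1 h2
    have h4 : k + 1 - l + (l + 1 - k) = 2 := by ring
    rw [h4] at h3
    have := Int.le_of_dvd (by norm_num) h3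
    omega
  by_cases hc : (m.bg o).b (k + 1) = (m.bg o).b l ∨ (m.bg o).b (l + 1) = (m.bg o).b k
  · rw [if_pos hc]
    symm
    rw [Set.ncard_eq_one]
    rcases hc with hc | hc
    · refine ⟨(m.face ^ k) o, ?_⟩
      ext e
      simp only [Set.mem_ofPred_eq, Set.mem_singleton_iff]
      constructor
      · rintro ⟨h1, h2, h3⟩
        rw [EE, not_and_or, not_not, not_not] at h1
        rcases h1 with h1 | h1
        · exact hout _ _ h1 h2
        · exfalso
          have h4 := hout _ _ h1 h3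
          have h5 := hbo l
          rw [← h4, m.opp_opp, h2] at h5
          exact hno ⟨hc, h5.symm⟩
      · rintro rfl
        refine ⟨fun h => h.1 (ho k), rfl, ?_⟩
        rw [hbo, hc]
    · refine ⟨m.opp ((m.face ^ l) o), ?_⟩
      ext e
      simp only [Set.mem_ofPred_eq, Set.mem_singleton_iff]
      constructor
      · rintro ⟨h1, h2, h3⟩
        rw [EE, not_and_or, not_not, not_not] at h1
        rcases h1 with h1 | h1
        · exfalso
          have h4 := hout _ _ h1 h2
          rw [h4, hbo] at h3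
          exact hno ⟨h3, hc⟩
        · rw [← hout _ _ h1 h3, m.opp_opp]
      · rintro rfl
        refine ⟨fun h => h.2 (by rw [m.opp_opp]; exact ho l), ?_, ?_⟩
        · rw [hbo, hc]
        · rw [m.opp_opp]
          rfl
  · rw [if_neg hc]
    symm
    rw [Set.ncard_eq_zero]
    rw [Set.eq_empty_iff_forall_notMem]
    rintro e ⟨h1, h2, h3⟩
    rw [EE, not_and_or, not_not, not_not] at h1
    rcases h1 with h1 | h1
    · rw [hout _ _ h1 h2, hbo] at h3
      exact hc (Or.inl h3)
    · have h4 := hout _ _ h1 h3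
      have h5 := hbo l
      rw [← h4, m.opp_opp, h2] at h5
      exact hc (Or.inr h5.symm)

end

end E10

open E10 in
theorem st_E10 (hF : ST_FILL) (hD : ST_DM) (h5 : ST_E05) (h7 : ST_E07) (h11 : ST_E11) :
    ST_E10 := by
  classical
  obtain ⟨K, hK, hDM⟩ := hD
  refine ⟨K, hK, ?_⟩
  intro n p hn hp x hx y hy
  obtain ⟨hadj1, hper1, hreg⟩ := h5 n p hp x hx
  obtain ⟨hadj2, hper2, -⟩ := h5 n p hp y hy
  have hreg := hreg y hy
  obtain ⟨g1, g2, gsymm, -, -, gjunk, grr, glr, glr0, gll0, gll⟩ := h7 _ _ _ _ hreg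
  obtain ⟨m1, o1⟩ := x
  obtain ⟨m2, o2⟩ := y
  simp only at hadj1 hper1 hreg hadj2 hper2 g1 g2 gsymm gjunk grr glr glr0 gll0 gll ⊢
  have hq1 := hx.1
  have hs1 := hx.2
  have hq2 := hy.1
  have hs2 := hy.2
  simp only at hq1 hs1 hq2 hs2
  have hno1 : ∀ e, m1.face.SameCycle o1 e → ¬ m1.face.SameCycle o1 (m1.opp e) :=
    fun e => noopp hp hs1 hq1.outer
  have hno2 : ∀ e, m2.face.SameCycle o2 e → ¬ m2.face.SameCycle o2 (m2.opp e) :=
    fun e => noopp hp hs2 hq2.outer
  obtain ⟨D, _, m, j1, j2, hpl, hj1, hopp1, hopp2, hglue, hf1, hf2, hcov, hj2, hj12, ht1, ht2, ht3,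
    ht4⟩ := hF _ _ m1 m2 o1 o2 hq1.planar hq2.planar (by rw [hq1.outer, hq2.outer]) hs2 hno2
  -- every dart comes from an inner dart
  have hcov2 : ∀ z, (∃ d, ¬ m1.face.SameCycle o1 d ∧ j1 d = z) ∨
      (∃ d, ¬ m2.face.SameCycle o2 d ∧ j2 d = z) := by
    intro z
    rcases hcov z with ⟨d, rfl⟩ | ⟨d, rfl⟩
    · by_cases hd : m1.face.SameCycle o1 d
      · obtain ⟨i, rfl⟩ := hd
        right
        refine ⟨m2.opp ((m2.face ^ (-i)) o2), hno2 _ ⟨-i, rfl⟩, ?_⟩
        rw [hopp2, hglue, ← hopp1, m1.opp_opp]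
      · exact Or.inl ⟨d, hd, rfl⟩
    · by_cases hd : m2.face.SameCycle o2 d
      · obtain ⟨i, rfl⟩ := hd
        left
        refine ⟨m1.opp ((m1.face ^ (-i)) o1), hno1 _ ⟨-i, rfl⟩, ?_⟩
        rw [← hglue, neg_neg]
      · exact Or.inr ⟨d, hd, rfl⟩
  have hfd : ∀ z, m.fdeg z = 4 := by
    intro z
    rcases hcov2 z with ⟨d, hd, rfl⟩ | ⟨d, hd, rfl⟩
    · rw [fdeg_image m1 m o1 j1 (fun a b _ _ h => hj1 h) hf1 d hd]
      exact hq1.inner d hd
    · rw [fdeg_image m2 m o2 j2 (fun a b ha hb h => hj2 a b ha hb h) hf2 d hd]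
      exact hq2.inner d hd
  have hM := hDM D m hpl hfd
  -- vertices
  let φ1 : m1.Vert → m.Vert := Quotient.lift (fun d => m.tail (j1 d))
    (fun a b h => (ht1 a b).2 (Quotient.sound h))
  let φ2 : m2.Vert → m.Vert := Quotient.lift (fun d => m.tail (j2 d))
    (fun a b h => ht2 a b (Quotient.sound h))
  have hφ1 : ∀ d, φ1 (m1.tail d) = m.tail (j1 d) := fun _ => rfl
  have hφ2 : ∀ d, φ2 (m2.tail d) = m.tail (j2 d) := fun _ => rfl
  have hb1 : ∀ i : ℤ, (m1.bg o1).b i = m1.tail ((m1.face ^ i) o1) := fun _ => rfl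
  have hb2 : ∀ i : ℤ, (m2.bg o2).b i = m2.tail ((m2.face ^ i) o2) := fun _ => rfl
  have hφ1i : Function.Injective φ1 := by
    intro a b
    induction a using Quotient.inductionOn with
    | _ a =>
    induction b using Quotient.inductionOn with
    | _ b =>
    intro h
    exact (ht1 a b).1 h
  have hnb : ∀ d, m2.tail d ∉ Set.range (m2.bg o2).b →
      ∀ i : ℤ, m2.tail d ≠ m2.tail ((m2.face ^ i) o2) := by
    intro d hd i h
    exact hd ⟨i, h.symm⟩
  have hφ2i : ∀ a b, a ∉ Set.range (m2.bg o2).b → φ2 a = φ2 b → a = b := by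
    intro a b
    induction a using Quotient.inductionOn with
    | _ a =>
    induction b using Quotient.inductionOn with
    | _ b =>
    intro ha h
    exact ht3 a b (hnb a ha) h
  have hφ21 : ∀ a b, a ∉ Set.range (m2.bg o2).b → φ2 a ≠ φ1 b := by
    intro a b
    induction a using Quotient.inductionOn with
    | _ a =>
    induction b using Quotient.inductionOn with
    | _ b =>
    intro ha
    exact ht4 a b (hnb a ha)
  have hφb : ∀ i : ℤ, φ2 ((m2.bg o2).b (1 - i)) = φ1 ((m1.bg o1).b i) := by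
    intro i
    rw [hb2, hφ2]
    have h1 := hglue (i - 1)
    rw [show -(i - 1) = 1 - i by ring] at h1
    rw [h1, ← hφ1, ← tail_face, face_zpow, sub_add_cancel]
    rfl
  have hφ21' : ∀ (a : m2.Vert) (b : m1.Vert), φ2 a = φ1 b →
      ∃ i : ℤ, a = (m2.bg o2).b (1 - i) ∧ b = (m1.bg o1).b i := by
    intro a b h
    by_cases ha : a ∈ Set.range (m2.bg o2).b
    · obtain ⟨k, rfl⟩ := ha
      refine ⟨1 - k, ?_, ?_⟩
      · congr 1
        ring
      · apply hφ1i
        rw [← hφb, ← h]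
        congr 2
        ring
    · exact absurd h (hφ21 a b ha)
  have hφ21b : ∀ (a : m2.Vert) (i : ℤ), φ2 a = φ1 ((m1.bg o1).b i) ↔
      a = (m2.bg o2).b (1 - i) := by
    intro a i
    constructor
    · intro h
      obtain ⟨k, hk1, hk2⟩ := hφ21' a _ h
      rw [hk1, ← hreg.glue, hk2]
    · rintro rfl
      exact hφb i
  have hφ2i' : ∀ a b, a ∉ Set.range (m2.bg o2).b → (φ2 b = φ2 a ↔ b = a) := by
    intro a b ha
    constructor
    · intro h
      exact (hφ2i a b ha h.symm).symm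
    · rintro rfl
      rfl
  -- the number of edges of the glued map
  have hmult : ∀ X Y : m.Vert, m.mult X Y =
      {d | φ1 (m1.tail d) = X ∧ φ1 (m1.tail (m1.opp d)) = Y}.ncard +
      {e | EE m2 o2 e ∧ φ2 (m2.tail e) = X ∧ φ2 (m2.tail (m2.opp e)) = Y}.ncard := by
    intro X Y
    have e1 : {d : D | m.tail d = X ∧ m.tail (m.opp d) = Y} =
        j1 '' {d | φ1 (m1.tail d) = X ∧ φ1 (m1.tail (m1.opp d)) = Y} ∪
        j2 '' {e | EE m2 o2 e ∧ φ2 (m2.tail e) = X ∧ φ2 (m2.tail (m2.opp e)) = Y} := by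
      ext z
      constructor
      · rintro ⟨h1, h2⟩
        by_cases hz : z ∈ Set.range j1
        · obtain ⟨d, rfl⟩ := hz
          left
          exact ⟨d, ⟨h1, by rw [hφ1, hopp1]; exact h2⟩, rfl⟩
        · rcases hcov z with hz' | ⟨e, rfl⟩
          · exact absurd hz' hz
          right
          refine ⟨e, ⟨⟨?_, ?_⟩, h1, by rw [hφ2, hopp2]; exact h2⟩, rfl⟩
          · rintro ⟨i, rfl⟩
            apply hz
            rw [show (i : ℤ) = -(-i) by ring, hglue]
            exact ⟨_, rfl⟩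
          · rintro ⟨i, hi⟩
            apply hz
            refine ⟨(m1.face ^ (-i)) o1, ?_⟩
            have h3 := hglue (-i)
            rw [neg_neg, hi, hopp2, hopp1] at h3
            exact (m.opp.injective h3).symm
      · rintro (⟨d, ⟨h1, h2⟩, rfl⟩ | ⟨e, ⟨-, h1, h2⟩, rfl⟩)
        · exact ⟨h1, by rw [← hopp1]; exact h2⟩
        · exact ⟨h1, by rw [← hopp2]; exact h2⟩
    rw [mult_ncard, e1, Set.ncard_union_eq, Set.ncard_image_of_injective _ hj1,
      Set.InjOn.ncard_image]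
    · intro a ha b hb hab
      exact hj2 a b ha.1.1 hb.1.1 hab
    · rw [Set.disjoint_left]
      rintro z ⟨d, -, rfl⟩ ⟨e, ⟨⟨h1, h2⟩, -⟩, h3⟩
      obtain ⟨i, -, rfl⟩ := hj12 d e h1 h3.symm
      apply h2
      rw [m2.opp_opp]
      exact ⟨-i, rfl⟩
  -- the two parts
  have hA11 : ∀ u v, {d | φ1 (m1.tail d) = φ1 u ∧ φ1 (m1.tail (m1.opp d)) = φ1 v}.ncard =
      m1.mult u v := by
    intro u v
    rw [mult_ncard]
    congr 1
    ext d
    exact and_congr hφ1i.eq_iff hφ1i.eq_iff
  have hA0 : ∀ (w : m2.Vert) (Y : m.Vert), w ∉ Set.range (m2.bg o2).b →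
      {d | φ1 (m1.tail d) = Y ∧ φ1 (m1.tail (m1.opp d)) = φ2 w}.ncard = 0 := by
    intro w Y hw
    rw [Set.ncard_eq_zero, Set.eq_empty_iff_forall_notMem]
    rintro d ⟨-, h⟩
    exact hφ21 _ _ hw h.symm
  have hC0 : ∀ (u : m1.Vert) (Y : m.Vert), u ∉ Set.range (m1.bg o1).b →
      {e | EE m2 o2 e ∧ φ2 (m2.tail e) = φ1 u ∧ φ2 (m2.tail (m2.opp e)) = Y}.ncard = 0 := by
    intro u Y hu
    rw [Set.ncard_eq_zero, Set.eq_empty_iff_forall_notMem]
    rintro e ⟨-, h, -⟩
    obtain ⟨i, -, h1⟩ := hφ21' _ _ h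
    exact hu ⟨i, h1.symm⟩
  -- the equation
  have hll0 : ∀ u v, u ∉ Set.range (m1.bg o1).b →
      glueC (m1.bg o1) (m2.bg o2) (Sum.inl u) (Sum.inl v) = m.mult (φ1 u) (φ1 v) := by
    intro u v hu
    rw [gll0 u v hu, hmult, hA11, hC0 u _ hu, add_zero]
    rfl
  have hlr : ∀ u w, w ∉ Set.range (m2.bg o2).b →
      glueC (m1.bg o1) (m2.bg o2) (Sum.inl u) (Sum.inr w) = m.mult (φ1 u) (φ2 w) := by
    intro u w hw
    rw [hmult, hA0 w _ hw, zero_add]
    by_cases hu : u ∈ Set.range (m1.bg o1).b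
    · obtain ⟨i, rfl⟩ := hu
      rw [glr i w hw]
      have e1 : {e | EE m2 o2 e ∧ φ2 (m2.tail e) = φ1 ((m1.bg o1).b i) ∧
          φ2 (m2.tail (m2.opp e)) = φ2 w}.ncard = cE m2 o2 ((m2.bg o2).b (1 - i)) w := by
        unfold cE
        congr 1
        ext e
        exact and_congr Iff.rfl (and_congr (hφ21b _ _) (hφ2i' _ _ hw))
      rw [e1, cE_inner _ _ _ _ (Or.inr hw)]
      rfl
    · rw [glr0 u w hu, hC0 u _ hu]
  have hmain : ∀ a b : m1.Vert ⊕ m2.Vert, (∀ w, a = Sum.inr w → w ∉ Set.range (m2.bg o2).b) →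
      (∀ w, b = Sum.inr w → w ∉ Set.range (m2.bg o2).b) →
      glueC (m1.bg o1) (m2.bg o2) a b = m.mult (Sum.elim φ1 φ2 a) (Sum.elim φ1 φ2 b) := by
    rintro (u | w) (v | w') ha hb
    · show _ = m.mult (φ1 u) (φ1 v)
      by_cases hu : u ∈ Set.range (m1.bg o1).b
      · by_cases hv : v ∈ Set.range (m1.bg o1).b
        · obtain ⟨i, rfl⟩ := hu
          obtain ⟨j, rfl⟩ := hv
          rw [gll i j, hmult, hA11]
          have e1 : {e | EE m2 o2 e ∧ φ2 (m2.tail e) = φ1 ((m1.bg o1).b i) ∧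
              φ2 (m2.tail (m2.opp e)) = φ1 ((m1.bg o1).b j)}.ncard =
              cE m2 o2 ((m2.bg o2).b (1 - i)) ((m2.bg o2).b (1 - j)) := by
            unfold cE
            congr 1
            ext e
            exact and_congr Iff.rfl (and_congr (hφ21b _ _) (hφ21b _ _))
          rw [e1]
          have e2 := cE_bdry hp hs2 hper2 (1 - i) (1 - j)
          have e3 : ((m2.bg o2).b (1 - i + 1) = (m2.bg o2).b (1 - j) ∨
              (m2.bg o2).b (1 - j + 1) = (m2.bg o2).b (1 - i)) ↔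
              ((m1.bg o1).b (i + 1) = (m1.bg o1).b j ∨ (m1.bg o1).b (j + 1) = (m1.bg o1).b i) := by
            rw [hper1, hper1, hper2, hper2, show 1 - i + 1 - (1 - j) = j + 1 - i by ring,
              show 1 - j + 1 - (1 - i) = i + 1 - j by ring]
            exact or_comm
          have e5 : (m2.bg o2).c ((m2.bg o2).b (1 - i)) ((m2.bg o2).b (1 - j)) =
            m2.mult ((m2.bg o2).b (1 - i)) ((m2.bg o2).b (1 - j)) := rfl
          have e6 : (m1.bg o1).c ((m1.bg o1).b i) ((m1.bg o1).b j) =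
            m1.mult ((m1.bg o1).b i) ((m1.bg o1).b j) := rfl
          rw [e5, e6, ← e2]
          by_cases h : ((m1.bg o1).b (i + 1) = (m1.bg o1).b j ∨
            (m1.bg o1).b (j + 1) = (m1.bg o1).b i)
          · rw [if_pos h, if_pos (e3.2 h)]
            omega
          · rw [if_neg h, if_neg (fun h' => h (e3.1 h'))]
            omega
        · rw [gsymm, hll0 v u hv, mult_symm]
      · exact hll0 u v hu
    · exact hlr u w' (hb w' rfl)
    · show _ = m.mult (φ2 w) (φ1 v)
      rw [gsymm, hlr v w (ha w rfl), mult_symm]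
    · show _ = m.mult (φ2 w) (φ2 w')
      rw [grr w w' (ha w rfl) (hb w' rfl), hmult, hA0 w' _ (hb w' rfl), zero_add]
      have e1 : {e | EE m2 o2 e ∧ φ2 (m2.tail e) = φ2 w ∧
          φ2 (m2.tail (m2.opp e)) = φ2 w'}.ncard = cE m2 o2 w w' := by
        unfold cE
        congr 1
        ext e
        exact and_congr Iff.rfl (and_congr (hφ2i' _ _ (ha w rfl)) (hφ2i' _ _ (hb w' rfl)))
      rw [e1, cE_inner _ _ _ _ (Or.inl (ha w rfl))]
      rfl
  -- junk vertices
  let J : Set (m1.Vert ⊕ m2.Vert) := {a | ∃ w ∈ Set.range (m2.bg o2).b, a = Sum.inr w}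
  have hJ : ∀ a ∉ J, ∀ w, a = Sum.inr w → w ∉ Set.range (m2.bg o2).b :=
    fun a ha w haw hw => ha ⟨w, hw, haw⟩
  have hf1 : Finite m1.Vert := Quotient.finite _
  have hf2 : Finite m2.Vert := Quotient.finite _
  have hf3 : Finite m.Vert := Quotient.finite _
  refine add_junk h11 hK (gl m1 o1 m2 o2) m.mult J (fun a => Sum.elim φ1 φ2 a.1) ?_ ?_ ?_ ?_ hM
  · constructor
    · rintro ⟨u | w, ha⟩ ⟨v | w', hb⟩ h
      · have := hφ1i h
        subst this
        rfl
      · exact absurd h.symm (hφ21 w' u (hJ _ hb w' rfl))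
      · exact absurd h (hφ21 w v (hJ _ ha w rfl))
      · have := hφ2i w w' (hJ _ ha w rfl) h
        subst this
        rfl
    · intro X
      obtain ⟨z, rfl⟩ := Quotient.exists_rep X
      rcases hcov z with ⟨d, rfl⟩ | ⟨d, rfl⟩
      · refine ⟨⟨Sum.inl (m1.tail d), ?_⟩, rfl⟩
        rintro ⟨w, -, h⟩
        cases h
      · by_cases hd : m2.tail d ∈ Set.range (m2.bg o2).b
        · obtain ⟨k, hk⟩ := hd
          refine ⟨⟨Sum.inl ((m1.bg o1).b (1 - k)), ?_⟩, ?_⟩
          · rintro ⟨w, -, h⟩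
            cases h
          · show φ1 ((m1.bg o1).b (1 - k)) = φ2 (m2.tail d)
            rw [← hφb, ← hk]
            congr 2
            ring
        · refine ⟨⟨Sum.inr (m2.tail d), ?_⟩, rfl⟩
          rintro ⟨w, hw, h⟩
          apply hd
          rw [Sum.inr.inj h]
          exact hw
  · rintro ⟨a, ha⟩ ⟨b, hb⟩
    exact hmain a b (hJ a ha) (hJ b hb)
  · rintro a ⟨w, hw, rfl⟩ b
    exact gjunk w hw b
  · rintro a b ⟨w, hw, rfl⟩
    exact (gsymm a (Sum.inr w)).trans (gjunk w hw a)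

end QR
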